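import Mathlib
import Pool.Agent.Q94.Rado

/-! # The endomorphism monoid of the random graph has commutative submonoid width at most `3` -/

namespace Pool.Agent.Results.MP_697e97_al.EndRandomGraph

open Pool.Agent.Q94.Rado

/-- `M` is a product `C₁ C₂ ⋯ Cₙ` of commutative submonoids. -/
def IsProductOfCommutative (M : Type*) [Monoid M] (n : ℕ) : Prop :=
  ∃ C : Fin n → Submonoid M, (∀ i, ∀ x ∈ C i, ∀ y ∈ C i, x * y = y * x) ∧
    ∀ m : M, ∃ c : Fin n → M, (∀ i, c i ∈ C i) ∧ m = (List.ofFn c).prod

/-- the endomorphism monoid of a graph, under composition -/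
def EndG {V : Type*} (G : SimpleGraph V) : Submonoid (Function.End V) where
  carrier := {f | ∀ x y, G.Adj x y → G.Adj (f x) (f y)}
  mul_mem' := fun hf hg x y h => hf _ _ (hg _ _ h)
  one_mem' := fun _ _ h => h

theorem comm_closure {M : Type*} [Monoid M] {s : Set M} (h : ∀ a ∈ s, ∀ b ∈ s, a * b = b * a) :
    ∀ x ∈ Submonoid.closure s, ∀ y ∈ Submonoid.closure s, x * y = y * x := by
  intro x hx y hy
  letI := Submonoid.closureCommMonoidOfComm M h
  exact congrArg Subtype.val (mul_comm (⟨x, hx⟩ : Submonoid.closure s) ⟨y, hy⟩)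

section
variable {V : Type} (G : SimpleGraph V)

/-- `f` is an endomorphism -/
def IsEnd (f : V → V) : Prop := ∀ x y, G.Adj x y → G.Adj (f x) (f y)

/-- The graph of states: the vertices are pairs of a vertex and a finite multiset of vertices. -/
def stateG : SimpleGraph (V × Multiset V) where
  Adj p q := G.Adj p.1 q.1 ∧ ∃ L : List (V → V), (∀ f ∈ L, IsEnd G f) ∧
    p.2 = ((L.map fun f => f p.1 : List V) : Multiset V) ∧
    q.2 = ((L.map fun f => f q.1 : List V) : Multiset V)
  symm := ⟨fun _ _ ⟨h, L, h1, h2, h3⟩ => ⟨h.symm, L, h1, h3, h2⟩⟩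
  loopless := ⟨fun _ ⟨h, _⟩ => h.ne rfl⟩

/-- add the value of `F` to the multiset -/
def add (F : V → V) (p : V × Multiset V) : V × Multiset V := (p.1, F p.1 ::ₘ p.2)

variable {G}

theorem add_hom {F : V → V} (hF : IsEnd G F) (p q : V × Multiset V) (h : (stateG G).Adj p q) :
    (stateG G).Adj (add F p) (add F q) := by
  obtain ⟨h0, L, h1, h2, h3⟩ := h
  refine ⟨h0, F :: L, ?_, ?_, ?_⟩
  · intro f hf
    rcases List.mem_cons.mp hf with rfl | hf
    · exact hF
    · exact h1 f hf
  · simp only [add, List.map_cons, ← Multiset.cons_coe, h2]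
  · simp only [add, List.map_cons, ← Multiset.cons_coe, h3]

theorem add_comm' (F F' : V → V) : add F ∘ add F' = add F' ∘ add F := by
  funext p
  simp only [Function.comp_apply, add, Multiset.cons_swap]

open Classical in
/-- read the value -/
noncomputable def out (p : V × Multiset V) : V :=
  if h : ∃ y, p.2 = {y} then h.choose else p.1

theorem out_singleton (x y : V) : out (x, {y}) = y := by
  have h : ∃ z, ((x, {y}) : V × Multiset V).2 = {z} := ⟨y, rfl⟩
  unfold out
  rw [dif_pos h]
  have := h.choose_spec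
  exact (Multiset.singleton_inj.mp this).symm

theorem out_of_card (p : V × Multiset V) (h : Multiset.card p.2 ≠ 1) : out p = p.1 := by
  unfold out
  rw [dif_neg]
  rintro ⟨y, hy⟩
  exact h (by rw [hy, Multiset.card_singleton])

theorem out_hom (p q : V × Multiset V) (h : (stateG G).Adj p q) : G.Adj (out p) (out q) := by
  obtain ⟨x, M⟩ := p
  obtain ⟨y, N⟩ := q
  obtain ⟨h0, L, h1, h2, h3⟩ := h
  simp only at h0 h2 h3
  by_cases hL : L.length = 1
  · obtain ⟨f, rfl⟩ := List.length_eq_one_iff.mp hL
    have e1 : M = {f x} := h2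
    have e2 : N = {f y} := h3
    rw [e1, e2, out_singleton, out_singleton]
    exact h1 f (by simp) _ _ h0
  · rw [out_of_card, out_of_card]
    · exact h0
    · rw [h3]; simpa using hL
    · rw [h2]; simpa using hL

theorem width_le_three [Countable V] (hG : HasExt G) : IsProductOfCommutative (EndG G) 3 := by
  have hc : Countable (Multiset V) := by
    have : Function.Surjective (fun l : List V => (l : Multiset V)) := Quot.mk_surjective
    exact this.countable
  obtain ⟨θ⟩ := iso_of_hasExt (HF.hasExt (stateG G)) hG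
  have hθs : ∀ x y, G.Adj x y → (HF.ext (stateG G)).Adj (θ.symm x) (θ.symm y) :=
    fun x y h => θ.symm.map_rel_iff.mpr h
  have hθ : ∀ s t, (HF.ext (stateG G)).Adj s t → G.Adj (θ s) (θ t) :=
    fun x y h => θ.map_rel_iff.mpr h
  let ih : EndG G := ⟨fun x => θ (HF.atom (x, 0)), fun x y h =>
    hθ _ _ (Or.inl ⟨_, _, rfl, rfl, ⟨h, [], by simp, rfl, rfl⟩⟩)⟩
  let ch : {F : V → V // IsEnd G F} → EndG G := fun F => ⟨fun x => θ (HF.map (add F.1) (θ.symm x)),
    fun x y h => hθ _ _ (HF.ext_map (add_hom F.2) (hθs _ _ h))⟩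
  let jh : EndG G := ⟨fun x => HF.retr hG (HF.map out (θ.symm x)),
    fun x y h => HF.retr_hom hG (HF.ext_map out_hom (hθs _ _ h))⟩
  have hch : ∀ F F', ch F * ch F' = ch F' * ch F := by
    intro F F'
    apply Subtype.ext
    funext x
    change θ (HF.map (add F.1) (θ.symm (θ (HF.map (add F'.1) (θ.symm x))))) =
      θ (HF.map (add F'.1) (θ.symm (θ (HF.map (add F.1) (θ.symm x)))))
    rw [RelIso.symm_apply_apply, RelIso.symm_apply_apply, HF.map_map, HF.map_map, add_comm']
  have hfac : ∀ F, jh * ch F * ih = ⟨F.1, F.2⟩ := by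
    intro F
    apply Subtype.ext
    funext x
    change HF.retr hG (HF.map out (θ.symm (θ (HF.map (add F.1) (θ.symm (θ (HF.atom (x, 0)))))))) =
      F.1 x
    rw [RelIso.symm_apply_apply, RelIso.symm_apply_apply]
    simp only [HF.map, HF.retr_atom, add]
    exact out_singleton x (F.1 x)
  refine ⟨![Submonoid.closure {jh}, Submonoid.closure (Set.range ch), Submonoid.closure {ih}],
    ?_, ?_⟩
  · intro i
    fin_cases i
    · refine comm_closure ?_
      rintro a rfl b rfl
      rfl
    · refine comm_closure ?_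
      rintro _ ⟨F, rfl⟩ _ ⟨F', rfl⟩
      exact hch F F'
    · refine comm_closure ?_
      rintro a rfl b rfl
      rfl
  · intro m
    refine ⟨![jh, ch ⟨m.1, m.2⟩, ih], ?_, ?_⟩
    · intro i
      fin_cases i
      · exact Submonoid.subset_closure rfl
      · exact Submonoid.subset_closure ⟨_, rfl⟩
      · exact Submonoid.subset_closure rfl
    · have := hfac ⟨m.1, m.2⟩
      rw [List.ofFn_succ, List.ofFn_succ, List.ofFn_succ, List.ofFn_zero]
      simp only [List.prod_cons, List.prod_nil, mul_one]
      change m = jh * (ch ⟨m.1, m.2⟩ * ih)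
      rw [← mul_assoc]
      exact this.symm

end

/-- **The answer to Q1 is positive**: the endomorphism monoid of the random graph (any countable
graph with the extension property; such a graph exists) is a product of three commutative
submonoids. -/
theorem result :
    (∃ (V : Type) (_ : Countable V) (G : SimpleGraph V), HasExt G) ∧
    ∀ (V : Type) (_ : Countable V) (G : SimpleGraph V), HasExt G →
      IsProductOfCommutative (EndG G) 3 :=
  ⟨⟨HF Empty, inferInstance, HF.ext ⊥, HF.hasExt _⟩, fun _ _ _ h => width_le_three h⟩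

end Pool.Agent.Results.MP_697e97_al.EndRandomGraph
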