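import Mathlib

/-! # `Aut(ℚ, ≤)` and `End(ℚ, ≤)` have infinite commutative submonoid width -/

namespace Pool.Agent.Results.MP_697e97_al.RationalOrderInfinite

/-- `M` is a product `C₁ C₂ ⋯ Cₙ` of commutative submonoids. -/
def IsProductOfCommutative (M : Type*) [Monoid M] (n : ℕ) : Prop :=
  ∃ C : Fin n → Submonoid M, (∀ i, ∀ x ∈ C i, ∀ y ∈ C i, x * y = y * x) ∧
    ∀ m : M, ∃ c : Fin n → M, (∀ i, c i ∈ C i) ∧ m = (List.ofFn c).prod

/-- the monoid of order preserving maps `ℚ → ℚ`, under composition -/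
def EndQ : Submonoid (Function.End ℚ) where
  carrier := {f | ∀ x y : ℚ, x ≤ y → f x ≤ f y}
  mul_mem' := fun hf hg x y h => hf _ _ (hg _ _ h)
  one_mem' := fun _ _ h => h

/-- a commuting set of monotone maps is eventually dominated by one function -/
theorem exists_dominating (C : Set (ℚ → ℚ)) (hm : ∀ a ∈ C, Monotone a)
    (hc : ∀ a ∈ C, ∀ b ∈ C, ∀ x, a (b x) = b (a x)) :
    ∃ h : ℚ → ℚ, (∀ x, x ≤ h x) ∧ ∀ a ∈ C, ∃ x₀ : ℚ, ∀ x, x₀ ≤ x → a x ≤ h x := by
  -- a countable dominating family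
  obtain ⟨g, hg⟩ : ∃ g : ℚ → ℚ → ℚ, ∀ a ∈ C, ∃ q, ∀ x, a x ≤ g q x := by
    by_cases hb : ∀ x, ∃ y, ∀ a ∈ C, a x ≤ y
    · choose y hy using hb
      exact ⟨fun _ => y, fun a ha => ⟨0, fun x => hy x a ha⟩⟩
    · push Not at hb
      obtain ⟨x₁, hx₁⟩ := hb
      choose c hcC hc1 using hx₁
      refine ⟨fun q x => c x q, fun a ha => ⟨a x₁, fun x => ?_⟩⟩
      calc a x ≤ a (c x x₁) := hm a ha (hc1 x).le
        _ = c x (a x₁) := hc a ha (c x) (hcC x) x₁
  obtain ⟨e, he⟩ := exists_surjective_nat ℚ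
  refine ⟨fun x => x + |x| + ∑ k ∈ Finset.range (⌈|x|⌉₊ + 1), |g (e k) x|, fun x => ?_, ?_⟩
  · have h1 : 0 ≤ ∑ k ∈ Finset.range (⌈|x|⌉₊ + 1), |g (e k) x| :=
      Finset.sum_nonneg fun _ _ => abs_nonneg _
    have h2 := abs_nonneg x
    linarith
  · intro a ha
    obtain ⟨q, hq⟩ := hg a ha
    obtain ⟨k, rfl⟩ := he q
    refine ⟨k, fun x hx => (hq x).trans ?_⟩
    have h1 : k ∈ Finset.range (⌈|x|⌉₊ + 1) := by
      rw [Finset.mem_range]
      have h2 : (k : ℚ) ≤ |x| := hx.trans (le_abs_self x)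
      have h3 : (k : ℚ) ≤ (⌈|x|⌉₊ : ℚ) := h2.trans (Nat.le_ceil _)
      have h4 : k ≤ ⌈|x|⌉₊ := by exact_mod_cast h3
      omega
    have h2 : |g (e k) x| ≤ ∑ k ∈ Finset.range (⌈|x|⌉₊ + 1), |g (e k) x| :=
      Finset.single_le_sum (f := fun k => |g (e k) x|) (fun _ _ => abs_nonneg _) h1
    have h3 := le_abs_self (g (e k) x)
    have h4 := neg_abs_le x
    simp only
    linarith

/-- all products of elements of finitely many commuting sets are eventually dominated by one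
function -/
theorem exists_dominating_prod : ∀ (n : ℕ) (C : Fin n → Set (ℚ → ℚ)),
    (∀ i, ∀ a ∈ C i, Monotone a) → (∀ i, ∀ a ∈ C i, ∀ b ∈ C i, ∀ x, a (b x) = b (a x)) →
    ∃ h : ℚ → ℚ, (∀ x, x ≤ h x) ∧ ∀ c : Fin n → (ℚ → ℚ), (∀ i, c i ∈ C i) →
      ∃ x₀ : ℚ, ∀ x, x₀ ≤ x → ((List.ofFn c).foldr (fun f g => f ∘ g) id) x ≤ h x := by
  intro n
  induction n with
  | zero =>
    intro C _ _
    exact ⟨id, fun _ => le_rfl, fun c _ => ⟨0, fun x _ => by simp⟩⟩
  | succ n ih =>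
    intro C hm hc
    obtain ⟨h', h1', h2'⟩ := ih (fun i => C i.succ) (fun i => hm i.succ) (fun i => hc i.succ)
    obtain ⟨h, h1, h2⟩ := exists_dominating (C 0) (hm 0) (hc 0)
    refine ⟨h ∘ h', fun x => (h1' x).trans (h1 _), fun c hcC => ?_⟩
    obtain ⟨x1, hx1⟩ := h2' (fun i => c i.succ) (fun i => hcC i.succ)
    obtain ⟨x2, hx2⟩ := h2 (c 0) (hcC 0)
    refine ⟨max x1 x2, fun x hx => ?_⟩
    rw [List.ofFn_succ, List.foldr_cons]
    simp only [Function.comp_apply]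
    exact (hm 0 _ (hcC 0) (hx1 x (le_of_max_le_left hx))).trans
      (hx2 _ ((le_of_max_le_right hx).trans (h1' x)))

/-- there are automorphisms of `(ℚ, ≤)` of arbitrarily fast growth -/
theorem exists_fast (H : ℚ → ℚ) : ∃ f : ℚ ≃o ℚ, ∀ n : ℕ, H n < f n := by
  -- the values at the natural numbers
  let B : ℕ → ℚ := fun n => ∑ k ∈ Finset.range (n + 1), (|H k| + 1)
  have hBs : ∀ n, B (n + 1) = B n + (|H ((n + 1 : ℕ) : ℚ)| + 1) := fun n =>
    Finset.sum_range_succ _ _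
  have hB0 : B 0 = |H ((0 : ℕ) : ℚ)| + 1 := by simp [B]
  have hBn : ∀ n : ℕ, (n : ℚ) + 1 ≤ B n := by
    intro n
    induction n with
    | zero => rw [hB0]; have := abs_nonneg (H ((0 : ℕ) : ℚ)); push_cast at this ⊢; linarith
    | succ n ih =>
      rw [hBs]
      have := abs_nonneg (H ((n + 1 : ℕ) : ℚ))
      push_cast at this ⊢
      linarith
  have hBH : ∀ n : ℕ, H n < B n := by
    intro n
    cases n with
    | zero => rw [hB0]; have := le_abs_self (H ((0 : ℕ) : ℚ)); linarith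
    | succ n =>
      rw [hBs]
      have h1 := le_abs_self (H ((n + 1 : ℕ) : ℚ))
      have h2 := hBn n
      have h3 : (0 : ℚ) ≤ n := Nat.cast_nonneg n
      linarith
  let b : ℤ → ℚ := fun z => if 0 ≤ z then B z.toNat else z
  have hbn : ∀ n : ℕ, b n = B n := fun n => by simp [b]
  have hbstep : ∀ z, b z < b (z + 1) := by
    intro z
    rcases lt_trichotomy z (-1) with h | h | h
    · have h1 : ¬ (0 ≤ z) := by omega
      have h2 : ¬ (0 ≤ z + 1) := by omega
      simp only [b, if_neg h1, if_neg h2]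
      push_cast
      linarith
    · subst h
      have := hBn 0
      simp only [b]
      norm_num at this ⊢
      linarith
    · obtain ⟨n, rfl⟩ := Int.eq_ofNat_of_zero_le (show 0 ≤ z by omega)
      have : ((n : ℤ) + 1) = ((n + 1 : ℕ) : ℤ) := by push_cast; ring
      rw [this, hbn, hbn, hBs]
      have := abs_nonneg (H ((n + 1 : ℕ) : ℚ))
      linarith
  have hbmono : StrictMono b := strictMono_int_of_lt_succ hbstep
  let f : ℚ → ℚ := fun x => b ⌊x⌋ + Int.fract x * (b (⌊x⌋ + 1) - b ⌊x⌋)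
  have hf1 : ∀ x, b ⌊x⌋ ≤ f x := fun x => by
    have h1 := Int.fract_nonneg x
    have h2 := hbstep ⌊x⌋
    have := mul_nonneg h1 (sub_nonneg.mpr h2.le)
    simp only [f]
    linarith
  have hf2 : ∀ x, f x < b (⌊x⌋ + 1) := fun x => by
    have h1 := Int.fract_lt_one x
    have h2 := hbstep ⌊x⌋
    have := mul_lt_mul_of_pos_right h1 (sub_pos.mpr h2)
    simp only [f]
    linarith
  have hfm : StrictMono f := by
    intro x y hxy
    rcases lt_or_eq_of_le (Int.floor_mono hxy.le) with h | h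
    · calc f x < b (⌊x⌋ + 1) := hf2 x
        _ ≤ b ⌊y⌋ := hbmono.monotone (by omega)
        _ ≤ f y := hf1 y
    · have h1 : Int.fract x < Int.fract y := by
        have e1 := Int.floor_add_fract x
        have e2 := Int.floor_add_fract y
        rw [h] at e1
        linarith
      have h2 := mul_lt_mul_of_pos_right h1 (sub_pos.mpr (hbstep ⌊y⌋))
      simp only [f, h]
      linarith
  have hfs : Function.Surjective f := by
    intro y
    obtain ⟨z, hz1, hz2⟩ : ∃ z, b z ≤ y ∧ ∀ w, b w ≤ y → w ≤ z := by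
      apply Int.exists_greatest_of_bdd
      · refine ⟨max ⌈y⌉ 0, fun w hw => ?_⟩
        by_contra hlt
        push Not at hlt
        obtain ⟨n, rfl⟩ := Int.eq_ofNat_of_zero_le (show 0 ≤ w by omega)
        have h1 : (⌈y⌉ : ℤ) < n := by
          have := le_max_left ⌈y⌉ 0
          exact lt_of_le_of_lt this hlt
        have h2 : y ≤ (n : ℚ) := by
          have h3 : y ≤ (⌈y⌉ : ℚ) := Int.le_ceil y
          have h4 : ((⌈y⌉ : ℤ) : ℚ) < ((n : ℤ) : ℚ) := by exact_mod_cast h1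
          push_cast at h4
          linarith
        have h5 := hBn n
        have h6 := hbn n
        rw [h6] at hw
        linarith
      · refine ⟨min ⌊y⌋ (-1), ?_⟩
        have h1 : ¬ (0 ≤ min ⌊y⌋ (-1)) := by omega
        simp only [b, if_neg h1]
        have h2 : ((min ⌊y⌋ (-1) : ℤ) : ℚ) ≤ (⌊y⌋ : ℚ) := by exact_mod_cast min_le_left _ _
        exact h2.trans (Int.floor_le y)
    have hz3 : y < b (z + 1) := by
      by_contra h
      push Not at h
      have := hz2 _ h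
      omega
    have hpos : 0 < b (z + 1) - b z := sub_pos.mpr (hbstep z)
    set t : ℚ := (y - b z) / (b (z + 1) - b z) with ht
    have ht0 : 0 ≤ t := div_nonneg (by linarith) hpos.le
    have ht1 : t < 1 := by rw [ht, div_lt_one hpos]; linarith
    refine ⟨z + t, ?_⟩
    have hfl : ⌊(z : ℚ) + t⌋ = z := by
      rw [Int.floor_eq_iff]
      constructor <;> linarith
    have hfr : Int.fract ((z : ℚ) + t) = t := by
      rw [Int.fract, hfl]; ring
    simp only [f, hfl, hfr]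
    rw [ht, div_mul_cancel₀ _ hpos.ne']
    ring
  refine ⟨hfm.orderIsoOfSurjective f hfs, fun n => ?_⟩
  change H n < f n
  have h1 := hf1 n
  rw [Int.floor_natCast, hbn] at h1
  exact lt_of_lt_of_le (hBH n) h1

theorem main (n : ℕ) (C : Fin n → Set (ℚ → ℚ)) (hm : ∀ i, ∀ a ∈ C i, Monotone a)
    (hc : ∀ i, ∀ a ∈ C i, ∀ b ∈ C i, ∀ x, a (b x) = b (a x)) :
    ∃ f : ℚ ≃o ℚ, ∀ c : Fin n → (ℚ → ℚ), (∀ i, c i ∈ C i) →
      (⇑f : ℚ → ℚ) ≠ (List.ofFn c).foldr (fun f g => f ∘ g) id := by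
  obtain ⟨h, -, h2⟩ := exists_dominating_prod n C hm hc
  obtain ⟨f, hf⟩ := exists_fast h
  refine ⟨f, fun c hcC hfc => ?_⟩
  obtain ⟨x₀, hx₀⟩ := h2 c hcC
  obtain ⟨m, hm⟩ := exists_nat_ge x₀
  have h3 := hx₀ m hm
  rw [← hfc] at h3
  exact absurd (hf m) (not_lt.mpr h3)

/-- the underlying map of an endomorphism -/
def toFn (g : EndQ) : ℚ → ℚ := g.1

theorem toFn_mul (g g' : EndQ) : toFn (g * g') = toFn g ∘ toFn g' := rfl

theorem prod_end (n : ℕ) (c : Fin n → EndQ) :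
    toFn (List.ofFn c).prod =
      (List.ofFn (fun i => toFn (c i))).foldr (fun f g => f ∘ g) id := by
  induction n with
  | zero => rfl
  | succ n ih =>
    rw [List.ofFn_succ, List.prod_cons, List.ofFn_succ, List.foldr_cons, ← ih, toFn_mul]

theorem prod_aut (n : ℕ) (c : Fin n → (ℚ ≃o ℚ)) :
    (⇑((List.ofFn c).prod) : ℚ → ℚ) =
      (List.ofFn (fun i => (⇑(c i) : ℚ → ℚ))).foldr (fun f g => f ∘ g) id := by
  induction n with
  | zero => rfl
  | succ n ih =>
    rw [List.ofFn_succ, List.prod_cons, List.ofFn_succ, List.foldr_cons, ← ih]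
    rfl

/-- `cmw(Aut(ℚ, ≤)) = cmw(End(ℚ, ≤)) = ∞`. -/
theorem result (n : ℕ) :
    ¬ IsProductOfCommutative (ℚ ≃o ℚ) n ∧ ¬ IsProductOfCommutative EndQ n := by
  constructor
  · rintro ⟨C, hC, hprod⟩
    obtain ⟨f, hf⟩ := main n (fun i => {a | ∃ g ∈ C i, a = (⇑g : ℚ → ℚ)})
      (by rintro i _ ⟨g, -, rfl⟩; exact g.monotone)
      (by
        rintro i _ ⟨g, hg, rfl⟩ _ ⟨g', hg', rfl⟩ x
        exact DFunLike.congr_fun (hC i g hg g' hg') x)
    obtain ⟨c, hc, hfc⟩ := hprod f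
    refine hf (fun i => ⇑(c i)) (fun i => ⟨c i, hc i, rfl⟩) ?_
    rw [← prod_aut, ← hfc]
  · rintro ⟨C, hC, hprod⟩
    obtain ⟨f, hf⟩ := main n (fun i => {a | ∃ g ∈ C i, a = toFn g})
      (by rintro i _ ⟨g, -, rfl⟩; exact fun x y h => g.2 x y h)
      (by
        rintro i _ ⟨g, hg, rfl⟩ _ ⟨g', hg', rfl⟩ x
        exact congrFun (congrArg Subtype.val (hC i g hg g' hg')) x)
    obtain ⟨c, hc, hfc⟩ := hprod ⟨⇑f, fun x y h => f.monotone h⟩
    refine hf (fun i => toFn (c i)) (fun i => ⟨c i, hc i, rfl⟩) ?_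
    have := congrArg toFn hfc
    rw [← prod_end]
    exact this

end Pool.Agent.Results.MP_697e97_al.RationalOrderInfinite
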